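import Pool.Agent.helper94.EU.SpecII
import Pool.Agent.helper52.EU.SpecI

set_option autoImplicit false

open Finset

namespace Pool.Agent.EU

open Pool.Agent.FI Pool.Agent.FJ

/-- the bilinear form -/
noncomputable def OUT_H (S : Finset ℤ) (I : ℤ → ℤ → ℝ) (lam : ℤ → ℝ) (g : ℤ → ℂ) : ℂ :=
  ∑ l₁ ∈ S, ∑ l₂ ∈ S, ((lam l₁ : ℂ) * (starRingEnd ℂ) (g l₁)) * ((lam l₂ : ℂ) * g l₂) * (I l₁ l₂ : ℂ)

theorem OUT_term (lam : ℤ → ℝ) (M : ℝ) (hM : ∀ l, |lam l| ≤ M) (g : ℤ → ℂ) (hg : ∀ n, ‖g n‖ ≤ 1) (i : ℝ) (hi : i = 0 ∨ i = 1) (l₁ l₂ : ℤ) :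
    ‖((lam l₁ : ℂ) * (starRingEnd ℂ) (g l₁)) * ((lam l₂ : ℂ) * g l₂) * (i : ℂ)‖ ≤ M ^ 2 * (if i ≠ 0 then 1 else 0) := by
  have hM0 : 0 ≤ M := (abs_nonneg _).trans (hM 0)
  rcases hi with hi | hi
  · rw [hi]; simp
  · rw [hi]
    have h1 : ‖(lam l₁ : ℂ) * (starRingEnd ℂ) (g l₁)‖ ≤ M := by
      rw [norm_mul, RCLike.norm_conj, Complex.norm_real]
      calc ‖lam l₁‖ * ‖g l₁‖ ≤ M * 1 := mul_le_mul (hM _) (hg _) (norm_nonneg _) hM0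
        _ = M := mul_one _
    have h2 : ‖(lam l₂ : ℂ) * g l₂‖ ≤ M := by
      rw [norm_mul, Complex.norm_real]
      calc ‖lam l₂‖ * ‖g l₂‖ ≤ M * 1 := mul_le_mul (hM _) (hg _) (norm_nonneg _) hM0
        _ = M := mul_one _
    rw [norm_mul, norm_mul]
    simp only [Complex.ofReal_one, norm_one, mul_one, ne_eq, one_ne_zero, not_false_eq_true, if_true]
    calc _ ≤ M * M := mul_le_mul h1 h2 (norm_nonneg _) hM0
      _ = M ^ 2 := by ring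

theorem OUT_Ha (S : Finset ℤ) (I : ℤ → ℤ → ℝ) (lam : ℤ → ℝ) (M B : ℝ) (hI : ∀ a b, I a b = 0 ∨ I a b = 1)
    (hM : ∀ l, |lam l| ≤ M) (hB : ∀ l₁ ∈ S, (#{l₂ ∈ S | I l₁ l₂ ≠ 0} : ℝ) ≤ B) (g : ℤ → ℂ) (hg : ∀ n, ‖g n‖ ≤ 1) :
    ‖OUT_H S I lam g‖ ≤ M ^ 2 * (#S * B) := by
  calc ‖OUT_H S I lam g‖ ≤ ∑ l₁ ∈ S, ∑ l₂ ∈ S, M ^ 2 * (if I l₁ l₂ ≠ 0 then 1 else 0) :=
        (norm_sum_le _ _).trans (sum_le_sum fun l₁ _ => (norm_sum_le _ _).trans (sum_le_sum fun l₂ _ => OUT_term lam M hM g hg _ (hI _ _) l₁ l₂))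
    _ = ∑ l₁ ∈ S, M ^ 2 * (#{l₂ ∈ S | I l₁ l₂ ≠ 0} : ℝ) := by
        refine sum_congr rfl fun l₁ _ => ?_
        rw [← mul_sum, sum_boole]
    _ ≤ ∑ l₁ ∈ S, M ^ 2 * B := sum_le_sum fun l₁ h => mul_le_mul_of_nonneg_left (hB l₁ h) (sq_nonneg _)
    _ = M ^ 2 * (#S * B) := by rw [sum_const, nsmul_eq_mul]; ring

theorem OUT_cnt (S : Finset ℤ) (Q : ℤ → Prop) [DecidablePred Q] (I : ℤ → ℤ → ℝ) (B b : ℝ) (hB0 : 0 ≤ B)
    (hB : ∀ l₁ ∈ S, (#{l₂ ∈ S | I l₁ l₂ ≠ 0} : ℝ) ≤ B) (hb : (#{l ∈ S | Q l} : ℝ) ≤ b) :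
    ∑ l₁ ∈ S, ∑ l₂ ∈ S, (if Q l₁ ∧ I l₁ l₂ ≠ 0 then (1 : ℝ) else 0) ≤ b * B := by
  calc ∑ l₁ ∈ S, ∑ l₂ ∈ S, (if Q l₁ ∧ I l₁ l₂ ≠ 0 then (1 : ℝ) else 0)
      = ∑ l₁ ∈ S, (if Q l₁ then (#{l₂ ∈ S | I l₁ l₂ ≠ 0} : ℝ) else 0) := by
        refine sum_congr rfl fun l₁ _ => ?_
        by_cases h : Q l₁
        · rw [if_pos h, ← sum_boole]
          exact sum_congr rfl fun l₂ _ => by simp only [h, true_and]
        · rw [if_neg h]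
          exact sum_eq_zero fun l₂ _ => if_neg fun h' => h h'.1
    _ = ∑ l₁ ∈ S with Q l₁, (#{l₂ ∈ S | I l₁ l₂ ≠ 0} : ℝ) := by rw [sum_filter]
    _ ≤ ∑ l₁ ∈ S with Q l₁, B := sum_le_sum fun l₁ h => hB l₁ (mem_filter.1 h).1
    _ = #{l ∈ S | Q l} * B := by rw [sum_const, nsmul_eq_mul]
    _ ≤ b * B := mul_le_mul_of_nonneg_right hb hB0

theorem OUT_Hb (S : Finset ℤ) (I : ℤ → ℤ → ℝ) (lam : ℤ → ℝ) (M B b : ℝ) (hI : ∀ a b, I a b = 0 ∨ I a b = 1)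
    (hM : ∀ l, |lam l| ≤ M) (hB0 : 0 ≤ B) (hB1 : ∀ l₁ ∈ S, (#{l₂ ∈ S | I l₁ l₂ ≠ 0} : ℝ) ≤ B)
    (hB2 : ∀ l₂ ∈ S, (#{l₁ ∈ S | I l₁ l₂ ≠ 0} : ℝ) ≤ B) (P : ℤ → Prop) [DecidablePred P]
    (hb : (#{l ∈ S | lam l ≠ 0 ∧ ¬ P l} : ℝ) ≤ b) (g : ℤ → ℂ) (hg : ∀ n, ‖g n‖ ≤ 1) :
    ‖OUT_H S I lam (fun n => if P n then g n else 0) - OUT_H S I lam g‖ ≤ M ^ 2 * (2 * (b * B)) := by
  have hd : OUT_H S I lam (fun n => if P n then g n else 0) - OUT_H S I lam g =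
      ∑ l₁ ∈ S, ∑ l₂ ∈ S, (((lam l₁ : ℂ) * (starRingEnd ℂ) (if P l₁ then g l₁ else 0)) * ((lam l₂ : ℂ) * (if P l₂ then g l₂ else 0)) * (I l₁ l₂ : ℂ)
        - ((lam l₁ : ℂ) * (starRingEnd ℂ) (g l₁)) * ((lam l₂ : ℂ) * g l₂) * (I l₁ l₂ : ℂ)) := by
    unfold OUT_H
    rw [← sum_sub_distrib]
    exact sum_congr rfl fun l₁ _ => by rw [← sum_sub_distrib]
  have hpt : ∀ l₁ l₂ : ℤ, ‖((lam l₁ : ℂ) * (starRingEnd ℂ) (if P l₁ then g l₁ else 0)) * ((lam l₂ : ℂ) * (if P l₂ then g l₂ else 0)) * (I l₁ l₂ : ℂ)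
        - ((lam l₁ : ℂ) * (starRingEnd ℂ) (g l₁)) * ((lam l₂ : ℂ) * g l₂) * (I l₁ l₂ : ℂ)‖ ≤
      M ^ 2 * ((if (lam l₁ ≠ 0 ∧ ¬ P l₁) ∧ I l₁ l₂ ≠ 0 then 1 else 0) + (if (lam l₂ ≠ 0 ∧ ¬ P l₂) ∧ I l₁ l₂ ≠ 0 then 1 else 0)) := by
    intro l₁ l₂
    have hM2 := sq_nonneg M
    by_cases h1 : P l₁
    · by_cases h2 : P l₂
      · simp only [h1, h2, if_true, sub_self, norm_zero, not_true_eq_false, and_false, false_and, if_false, add_zero, mul_zero, le_refl]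
      · simp only [h1, h2, if_true, if_false, mul_zero, zero_mul, zero_sub, norm_neg, not_true_eq_false, not_false_eq_true, and_false, and_true, false_and, zero_add]
        by_cases h3 : lam l₂ = 0
        · rw [h3]; simp
        · simp only [ne_eq, h3, not_false_eq_true, true_and]
          exact OUT_term lam M hM g hg _ (hI _ _) l₁ l₂
    · simp only [h1, if_false, map_zero, mul_zero, zero_mul, zero_sub, norm_neg, not_false_eq_true, and_true]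
      by_cases h3 : lam l₁ = 0
      · rw [h3]
        simp only [Complex.ofReal_zero, zero_mul, norm_zero]
        refine mul_nonneg hM2 (add_nonneg ?_ ?_) <;> split_ifs <;> norm_num
      · refine (OUT_term lam M hM g hg _ (hI _ _) l₁ l₂).trans (mul_le_mul_of_nonneg_left ?_ hM2)
        simp only [ne_eq, h3, not_false_eq_true, true_and]
        have : (0 : ℝ) ≤ (if (¬lam l₂ = 0 ∧ ¬P l₂) ∧ ¬I l₁ l₂ = 0 then 1 else 0) := by split_ifs <;> norm_num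
        linarith
  have hs1 := OUT_cnt S (fun l => lam l ≠ 0 ∧ ¬ P l) I B b hB0 hB1 hb
  have hs2 := OUT_cnt S (fun l => lam l ≠ 0 ∧ ¬ P l) (fun a c => I c a) B b hB0 hB2 hb
  rw [sum_comm] at hs2
  rw [hd]
  calc _ ≤ ∑ l₁ ∈ S, ∑ l₂ ∈ S, M ^ 2 * ((if (lam l₁ ≠ 0 ∧ ¬ P l₁) ∧ I l₁ l₂ ≠ 0 then 1 else 0) + (if (lam l₂ ≠ 0 ∧ ¬ P l₂) ∧ I l₁ l₂ ≠ 0 then 1 else 0)) :=
        (norm_sum_le _ _).trans (sum_le_sum fun l₁ _ => (norm_sum_le _ _).trans (sum_le_sum fun l₂ _ => hpt l₁ l₂))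
    _ = M ^ 2 * (∑ l₁ ∈ S, ∑ l₂ ∈ S, (if (lam l₁ ≠ 0 ∧ ¬ P l₁) ∧ I l₁ l₂ ≠ 0 then (1 : ℝ) else 0)
        + ∑ l₁ ∈ S, ∑ l₂ ∈ S, (if (lam l₂ ≠ 0 ∧ ¬ P l₂) ∧ I l₁ l₂ ≠ 0 then (1 : ℝ) else 0)) := by
        rw [← sum_add_distrib, mul_sum]
        refine sum_congr rfl fun l₁ _ => ?_
        rw [← sum_add_distrib, mul_sum]
    _ ≤ M ^ 2 * (2 * (b * B)) := by
        refine mul_le_mul_of_nonneg_left ?_ (sq_nonneg _)
        linarith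

/-! ### the characters -/

open scoped Classical in
theorem OUT_c
    (hCNE : ∀ D R₀ : ℕ, 1 ≤ D → ∀ G : (ℤ → ℂ) → ℂ,
      ∑ χ : DirichletCharacter ℂ D with χ.conductor ≤ R₀, G (fun n => χ (n : ZMod D)) =
        ∑ r ∈ Icc 1 R₀ with r ∣ D, ∑ ψ : DirichletCharacter ℂ r with ψ.IsPrimitive, G (fun n => if IsCoprime n (D : ℤ) then ψ (n : ZMod r) else 0))
    (hTPD : ∀ D : ℕ, 1 ≤ D → 1 / (Nat.totient D : ℝ) = 1 / D * ∑ d ∈ D.divisors with Squarefree d, 1 / (Nat.totient d : ℝ))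
    (hNCH : ∀ D R₀ : ℕ, 1 ≤ D → #{χ : DirichletCharacter ℂ D | χ.conductor ≤ R₀} ≤ R₀ ^ 2)
    (D R₀ D₀ : ℕ) (hD : 1 ≤ D) (om : ℤ) (hom : IsCoprime om (D : ℤ))
    (H : (ℤ → ℂ) → ℂ) (E0 E1 : ℝ) (h0 : 0 ≤ E0) (hH0 : ∀ g : ℤ → ℂ, (∀ n, ‖g n‖ ≤ 1) → ‖H g‖ ≤ E0)
    (hH1 : ∀ g : ℤ → ℂ, (∀ n, ‖g n‖ ≤ 1) → ‖H (fun n => if IsCoprime n (D : ℤ) then g n else 0) - H g‖ ≤ E1) :
    ‖1 / (Nat.totient D : ℂ) * ∑ χ : DirichletCharacter ℂ D with χ.conductor ≤ R₀, (starRingEnd ℂ) (χ (om : ZMod D)) * H (fun n => χ (n : ZMod D))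
      - ∑ d ∈ Icc 1 D₀ with Squarefree d, (1 / ((D : ℂ) * (Nat.totient d : ℂ))) * ∑ r ∈ Icc 1 R₀, ∑ ψ : DirichletCharacter ℂ r with ψ.IsPrimitive,
          (if r ∣ D ∧ d ∣ D then (starRingEnd ℂ) (ψ (om : ZMod r)) else 0) * H (fun n => ψ (n : ZMod r))‖
      ≤ R₀ ^ 2 * (1 / (Nat.totient D : ℝ) * E1 + (1 / (D : ℝ) * ∑ d ∈ D.divisors with D₀ < d, 1 / (Nat.totient d : ℝ)) * E0) := by
  have hE1 : 0 ≤ E1 := (norm_nonneg _).trans (hH1 (fun _ => 0) (fun _ => by simp))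
  have hψ1 : ∀ (r : ℕ) (ψ : DirichletCharacter ℂ r) (n : ZMod r), ‖ψ n‖ ≤ 1 := fun r ψ n => DirichletCharacter.norm_le_one ψ n
  set T : ℂ := ∑ r ∈ Icc 1 R₀ with r ∣ D, ∑ ψ : DirichletCharacter ℂ r with ψ.IsPrimitive, (starRingEnd ℂ) (ψ (om : ZMod r)) * H (fun n => ψ (n : ZMod r)) with hT
  -- the number of pairs
  have hcard : (∑ r ∈ Icc 1 R₀ with r ∣ D, ∑ ψ : DirichletCharacter ℂ r with ψ.IsPrimitive, (1 : ℝ)) ≤ (R₀ : ℝ) ^ 2 := by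
    have h := hCNE D R₀ hD (fun _ => 1)
    have h2 : ((#{χ : DirichletCharacter ℂ D | χ.conductor ≤ R₀} : ℕ) : ℂ) =
        ((∑ r ∈ Icc 1 R₀ with r ∣ D, #{ψ : DirichletCharacter ℂ r | ψ.IsPrimitive} : ℕ) : ℂ) := by
      rw [Nat.cast_sum]
      simpa only [sum_const, nsmul_eq_mul, mul_one] using h
    have h3 : #{χ : DirichletCharacter ℂ D | χ.conductor ≤ R₀} = ∑ r ∈ Icc 1 R₀ with r ∣ D, #{ψ : DirichletCharacter ℂ r | ψ.IsPrimitive} :=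
      Nat.cast_injective h2
    have h4 := hNCH D R₀ hD
    rw [h3] at h4
    simp only [sum_const, nsmul_eq_mul, mul_one]
    exact_mod_cast h4
  have hTn : ‖T‖ ≤ (R₀ : ℝ) ^ 2 * E0 := by
    calc ‖T‖ ≤ ∑ r ∈ Icc 1 R₀ with r ∣ D, ∑ ψ : DirichletCharacter ℂ r with ψ.IsPrimitive, 1 * E0 := by
          refine (norm_sum_le _ _).trans (sum_le_sum fun r _ => (norm_sum_le _ _).trans (sum_le_sum fun ψ _ => ?_))
          rw [norm_mul, RCLike.norm_conj]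
          exact mul_le_mul (hψ1 _ _ _) (hH0 _ fun n => hψ1 _ _ _) (norm_nonneg _) zero_le_one
      _ = (∑ r ∈ Icc 1 R₀ with r ∣ D, ∑ ψ : DirichletCharacter ℂ r with ψ.IsPrimitive, (1 : ℝ)) * E0 := by
          rw [sum_mul]; exact sum_congr rfl fun r _ => by rw [sum_mul]
      _ ≤ (R₀ : ℝ) ^ 2 * E0 := mul_le_mul_of_nonneg_right hcard h0
  have hsum : ∑ χ : DirichletCharacter ℂ D with χ.conductor ≤ R₀, (starRingEnd ℂ) (χ (om : ZMod D)) * H (fun n => χ (n : ZMod D)) =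
      ∑ r ∈ Icc 1 R₀ with r ∣ D, ∑ ψ : DirichletCharacter ℂ r with ψ.IsPrimitive,
        (starRingEnd ℂ) (ψ (om : ZMod r)) * H (fun n => if IsCoprime n (D : ℤ) then ψ (n : ZMod r) else 0) := by
    have h := hCNE D R₀ hD (fun g => (starRingEnd ℂ) (g om) * H g)
    simp only [if_pos hom] at h
    exact h
  have hdiff : ‖∑ χ : DirichletCharacter ℂ D with χ.conductor ≤ R₀, (starRingEnd ℂ) (χ (om : ZMod D)) * H (fun n => χ (n : ZMod D)) - T‖ ≤ (R₀ : ℝ) ^ 2 * E1 := by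
    rw [hsum, hT, ← sum_sub_distrib]
    calc _ ≤ ∑ r ∈ Icc 1 R₀ with r ∣ D, ∑ ψ : DirichletCharacter ℂ r with ψ.IsPrimitive, 1 * E1 := by
          refine (norm_sum_le _ _).trans (sum_le_sum fun r _ => ?_)
          rw [← sum_sub_distrib]
          refine (norm_sum_le _ _).trans (sum_le_sum fun ψ _ => ?_)
          rw [← mul_sub, norm_mul, RCLike.norm_conj]
          exact mul_le_mul (hψ1 _ _ _) (hH1 _ fun n => hψ1 _ _ _) (norm_nonneg _) zero_le_one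
      _ = (∑ r ∈ Icc 1 R₀ with r ∣ D, ∑ ψ : DirichletCharacter ℂ r with ψ.IsPrimitive, (1 : ℝ)) * E1 := by
          rw [sum_mul]; exact sum_congr rfl fun r _ => by rw [sum_mul]
      _ ≤ (R₀ : ℝ) ^ 2 * E1 := mul_le_mul_of_nonneg_right hcard hE1
  -- the main part
  set a : ℝ := 1 / (D : ℝ) * ∑ d ∈ D.divisors with (Squarefree d ∧ d ≤ D₀), 1 / (Nat.totient d : ℝ) with ha
  set s : ℝ := 1 / (D : ℝ) * ∑ d ∈ D.divisors with (Squarefree d ∧ ¬ d ≤ D₀), 1 / (Nat.totient d : ℝ) with hs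
  have has : 1 / (Nat.totient D : ℝ) = a + s := by
    rw [hTPD D hD, ha, hs, ← mul_add, ← filter_filter, ← filter_filter, sum_filter_add_sum_filter_not]
  have hs0 : 0 ≤ s := mul_nonneg (by positivity) (sum_nonneg fun d _ => by positivity)
  have hsle : s ≤ 1 / (D : ℝ) * ∑ d ∈ D.divisors with D₀ < d, 1 / (Nat.totient d : ℝ) := by
    refine mul_le_mul_of_nonneg_left (sum_le_sum_of_subset_of_nonneg (fun d hd => ?_) fun d _ _ => by positivity) (by positivity)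
    rw [mem_filter] at hd ⊢
    exact ⟨hd.1, not_le.1 hd.2.2⟩
  have hmain : ∑ d ∈ Icc 1 D₀ with Squarefree d, (1 / ((D : ℂ) * (Nat.totient d : ℂ))) * ∑ r ∈ Icc 1 R₀, ∑ ψ : DirichletCharacter ℂ r with ψ.IsPrimitive,
          (if r ∣ D ∧ d ∣ D then (starRingEnd ℂ) (ψ (om : ZMod r)) else 0) * H (fun n => ψ (n : ZMod r)) = (a : ℂ) * T := by
    have h1 : ∀ d : ℕ, ∑ r ∈ Icc 1 R₀, ∑ ψ : DirichletCharacter ℂ r with ψ.IsPrimitive,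
          (if r ∣ D ∧ d ∣ D then (starRingEnd ℂ) (ψ (om : ZMod r)) else 0) * H (fun n => ψ (n : ZMod r)) = if d ∣ D then T else 0 := by
      intro d
      by_cases hd : d ∣ D
      · rw [if_pos hd, hT, sum_filter]
        refine sum_congr rfl fun r _ => ?_
        by_cases hr : r ∣ D
        · simp only [hr, hd, and_self, if_true]
        · simp only [hr, hd, false_and, if_false, zero_mul, sum_const_zero]
      · rw [if_neg hd]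
        refine sum_eq_zero fun r _ => sum_eq_zero fun ψ _ => ?_
        rw [if_neg fun h => hd h.2, zero_mul]
    simp only [h1]
    have ha3 : (a : ℂ) = ∑ d ∈ D.divisors with (Squarefree d ∧ d ≤ D₀), 1 / (D : ℂ) * (1 / (Nat.totient d : ℂ)) := by
      rw [ha]
      push_cast
      rw [mul_sum]
    rw [ha3, sum_mul]
    have h2 : ∀ d : ℕ, (1 / ((D : ℂ) * (Nat.totient d : ℂ))) * (if d ∣ D then T else 0) = if d ∣ D then 1 / (D : ℂ) * (1 / (Nat.totient d : ℂ)) * T else 0 := by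
      intro d
      split_ifs
      · rw [one_div_mul_one_div]
      · rw [mul_zero]
    simp only [h2]
    rw [← sum_filter, filter_filter]
    refine sum_congr ?_ fun _ _ => rfl
    ext d
    simp only [mem_filter, mem_Icc, Nat.mem_divisors]
    constructor
    · rintro ⟨⟨_, h2⟩, h3, h4⟩
      exact ⟨⟨h4, by omega⟩, h3, h2⟩
    · rintro ⟨⟨h1, _⟩, h2, h3⟩
      exact ⟨⟨Nat.pos_of_dvd_of_pos h1 hD, h3⟩, h2, h1⟩
  rw [hmain]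
  have hcast : (1 / (Nat.totient D : ℂ)) = (a : ℂ) + (s : ℂ) := by
    have h : ((1 / (Nat.totient D : ℝ) : ℝ) : ℂ) = ((a + s : ℝ) : ℂ) := by rw [has]
    push_cast at h
    exact h
  have hcast2 : (1 / (Nat.totient D : ℂ)) = ((1 / (Nat.totient D : ℝ) : ℝ) : ℂ) := by push_cast; rfl
  set Sg : ℂ := ∑ χ : DirichletCharacter ℂ D with χ.conductor ≤ R₀, (starRingEnd ℂ) (χ (om : ZMod D)) * H (fun n => χ (n : ZMod D)) with hSg
  have hd : 1 / (Nat.totient D : ℂ) * Sg - (a : ℂ) * T = ((1 / (Nat.totient D : ℝ) : ℝ) : ℂ) * (Sg - T) + (s : ℂ) * T := by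
    rw [← hcast2, mul_sub, hcast]; ring
  rw [hd]
  calc _ ≤ ‖((1 / (Nat.totient D : ℝ) : ℝ) : ℂ) * (Sg - T)‖ + ‖(s : ℂ) * T‖ := norm_add_le _ _
    _ = 1 / (Nat.totient D : ℝ) * ‖Sg - T‖ + s * ‖T‖ := by
        rw [norm_mul, norm_mul, Complex.norm_real, Complex.norm_real, Real.norm_of_nonneg (by positivity), Real.norm_of_nonneg hs0]
    _ ≤ 1 / (Nat.totient D : ℝ) * ((R₀ : ℝ) ^ 2 * E1) + (1 / (D : ℝ) * ∑ d ∈ D.divisors with D₀ < d, 1 / (Nat.totient d : ℝ)) * ((R₀ : ℝ) ^ 2 * E0) := by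
        refine add_le_add (mul_le_mul_of_nonneg_left hdiff (by positivity)) (mul_le_mul hsle hTn (norm_nonneg _) ?_)
        exact mul_nonneg (by positivity) (sum_nonneg fun d _ => by positivity)
    _ = _ := by ring

/-! ### sums over the pairs -/

open scoped Classical in
theorem OUT_fib (C : ℝ) (hPAD : ∀ N D : ℕ, 1 ≤ N → (#{p ∈ ZD N ×ˢ ZD N | (dl p.1 p.2).natAbs = D} : ℝ) ≤ C * N)
    (x N A K₁ : ℕ) (hx : 1 ≤ x) (hN : 1 ≤ N) (F : ℕ → ℝ) (hF : ∀ t, 0 ≤ F t) :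
    ∑ p ∈ Pr x N A K₁, F (dl p.1 p.2).natAbs ≤ C * N * ∑ t ∈ Icc 1 (N * A / x), F t := by
  have hmaps : ∀ p ∈ Pr x N A K₁, (dl p.1 p.2).natAbs ∈ Icc 1 (N * A / x) := by
    intro p hp
    have hp2 := (mem_filter.1 hp).2
    rw [mem_Icc]
    refine ⟨?_, ?_⟩
    · by_contra h
      have h0 : (dl p.1 p.2).natAbs = 0 := by omega
      rw [h0] at hp2
      simp at hp2
    · rw [Nat.le_div_iff_mul_le (by omega), mul_comm]
      exact hp2.2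
  rw [← sum_fiberwise_of_maps_to hmaps, mul_sum]
  refine sum_le_sum fun t _ => ?_
  calc ∑ p ∈ Pr x N A K₁ with (dl p.1 p.2).natAbs = t, F (dl p.1 p.2).natAbs
      = ∑ p ∈ Pr x N A K₁ with (dl p.1 p.2).natAbs = t, F t := sum_congr rfl fun p hp => by rw [(mem_filter.1 hp).2]
    _ = (#{p ∈ Pr x N A K₁ | (dl p.1 p.2).natAbs = t} : ℝ) * F t := by rw [sum_const, nsmul_eq_mul]
    _ ≤ C * N * F t := by
        refine mul_le_mul_of_nonneg_right (le_trans ?_ (hPAD N t hN)) (hF t)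
        refine Nat.cast_le.2 (card_le_card fun p hp => ?_)
        rw [mem_filter] at hp ⊢
        exact ⟨(mem_filter.1 hp.1).1, hp.2⟩

/-- the error for one pair and one `e` -/
noncomputable def OUT_S (D₀ D : ℕ) : ℝ := 1 / (D : ℝ) * ∑ d ∈ D.divisors with D₀ < d, 1 / (Nat.totient d : ℝ)

theorem OUT_S_nonneg (D₀ D : ℕ) : 0 ≤ OUT_S D₀ D := mul_nonneg (by positivity) (sum_nonneg fun d _ => by positivity)

theorem OUT_LL (x A : ℕ) (lam : ℤ → ℝ) (z z' : ℤ × ℤ) {D : ℕ} (χ : DirichletCharacter ℂ D) :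
    LL x A lam z z' χ = OUT_H (Ioc (x : ℤ) (2 * x)) (fun a b => Ind A z z' a b) lam (fun n => χ (n : ZMod D)) := by
  unfold LL OUT_H
  exact sum_congr rfl fun l₁ _ => sum_congr rfl fun l₂ _ => by ring

theorem OUT_Ind (A : ℕ) (z z' : ℤ × ℤ) (a b : ℤ) : Ind A z z' a b = 0 ∨ Ind A z z' a b = 1 := by
  unfold Ind
  split_ifs
  · exact Or.inr rfl
  · exact Or.inl rfl

open scoped Classical in
/-- one pair `p` and one `e` -/
theorem OUT_one (hCNE : CNE_stmt) (hTPD : TPD_stmt) (hCOQ : COQ_stmt) (hCNI : CNI_stmt) (hNCH : NCH_stmt)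
    (om : ℕ → ℤ × ℤ → ℤ × ℤ → ℤ) (hom : OmOK om) (x Z N A K₁ R₀ D₀ : ℕ) (hx : 1 ≤ x) (hZ : 1 ≤ Z) (hN : 1 ≤ N)
    (M : ℝ) (lam : ℤ → ℝ) (hlam : LamOK x Z M lam) (p : (ℤ × ℤ) × (ℤ × ℤ)) (hp : p ∈ Pr x N A K₁) (e : ℕ) (he : e = 1 ∨ e = 2) :
    ‖1 / (Nat.totient (e * (dl p.1 p.2).natAbs) : ℂ) * ∑ χ : DirichletCharacter ℂ (e * (dl p.1 p.2).natAbs) with χ.conductor ≤ R₀,
        (starRingEnd ℂ) (χ (om e p.1 p.2 : ZMod (e * (dl p.1 p.2).natAbs))) * LL x A lam p.1 p.2 χ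
      - ∑ d ∈ Icc 1 D₀ with Squarefree d, (1 / (((e * (dl p.1 p.2).natAbs : ℕ) : ℂ) * (Nat.totient d : ℂ))) * ∑ r ∈ Icc 1 R₀,
          ∑ ψ : DirichletCharacter ℂ r with ψ.IsPrimitive, Omf om e r d ψ p.1 p.2 *
            OUT_H (Ioc (x : ℤ) (2 * x)) (fun a b => Ind A p.1 p.2 a b) lam (fun n => ψ (n : ZMod r))‖
      ≤ R₀ ^ 2 * (1 / (Nat.totient (dl p.1 p.2).natAbs : ℝ) * (M ^ 2 * (2 * (2 * (1 + Real.log (2 * N * A / x : ℕ)) * (x / Z + 1) * ((A : ℝ) ^ 2 / x + 1))))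
        + OUT_S D₀ (e * (dl p.1 p.2).natAbs) * (M ^ 2 * (x * ((A : ℝ) ^ 2 / x + 1)))) := by
  have hxr : (0 : ℝ) < x := by exact_mod_cast hx
  have hZr : (0 : ℝ) < Z := by exact_mod_cast hZ
  have hNr : (0 : ℝ) < N := by exact_mod_cast hN
  obtain ⟨hp1, hp2, hp3⟩ : p ∈ ZD N ×ˢ ZD N ∧ N * A < K₁ * (x * (dl p.1 p.2).natAbs) ∧ x * (dl p.1 p.2).natAbs ≤ N * A := by
    have h := mem_filter.1 hp
    exact ⟨h.1, h.2.1, h.2.2⟩
  obtain ⟨hz, hz'⟩ := mem_product.1 hp1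
  set t : ℕ := (dl p.1 p.2).natAbs with ht
  have ht1 : 1 ≤ t := by
    by_contra h
    have h0 : t = 0 := by omega
    rw [h0] at hp2
    simp at hp2
  have hdl : dl p.1 p.2 ≠ 0 := by
    intro h
    rw [h] at ht
    simp at ht
    omega
  have he1 : 1 ≤ e := by omega
  have he2 : e ≤ 2 := by omega
  have hD1 : 1 ≤ e * t := Nat.one_le_iff_ne_zero.2 (Nat.mul_ne_zero (by omega) (by omega))
  -- sizes
  have hDX : e * t ≤ 2 * N * A / x := by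
    rw [Nat.le_div_iff_mul_le (by omega)]
    calc e * t * x ≤ 2 * t * x := Nat.mul_le_mul_right _ (Nat.mul_le_mul_right _ he2)
      _ = 2 * (x * t) := by ring
      _ ≤ 2 * (N * A) := Nat.mul_le_mul_left _ hp3
      _ = 2 * N * A := by ring
  have hlogD : Real.log (e * t : ℕ) ≤ Real.log (2 * N * A / x : ℕ) :=
    Real.log_le_log (by exact_mod_cast hD1) (by exact_mod_cast hDX)
  have hB : (A : ℝ) * (t : ℝ) / N + 1 ≤ (A : ℝ) ^ 2 / x + 1 := by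
    have h : (x : ℝ) * t ≤ N * A := by exact_mod_cast hp3
    have : (A : ℝ) * (t : ℝ) / N ≤ (A : ℝ) ^ 2 / x := by
      rw [div_le_div_iff₀ hNr hxr]
      calc (A : ℝ) * t * x = A * (x * t) := by ring
        _ ≤ A * (N * A) := mul_le_mul_of_nonneg_left h (Nat.cast_nonneg _)
        _ = (A : ℝ) ^ 2 * N := by ring
    linarith
  have hB0 : (0 : ℝ) ≤ (A : ℝ) ^ 2 / x + 1 := by positivity
  obtain ⟨hc1, hc2, _⟩ := hCNI x N A hx hN p.1 hz p.2 hz' hdl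
  have hB1 : ∀ l₁ ∈ Ioc (x : ℤ) (2 * x), (#{l₂ ∈ Ioc (x : ℤ) (2 * x) | Ind A p.1 p.2 l₁ l₂ ≠ 0} : ℝ) ≤ (A : ℝ) ^ 2 / x + 1 :=
    fun l₁ _ => (hc1 l₁).trans hB
  have hB2 : ∀ l₂ ∈ Ioc (x : ℤ) (2 * x), (#{l₁ ∈ Ioc (x : ℤ) (2 * x) | Ind A p.1 p.2 l₁ l₂ ≠ 0} : ℝ) ≤ (A : ℝ) ^ 2 / x + 1 :=
    fun l₂ _ => (hc2 l₂).trans hB
  have hcard : (#(Ioc (x : ℤ) (2 * x)) : ℝ) = x := by
    rw [Int.card_Ioc]
    have : ((2 * (x : ℤ) - x).toNat) = x := by omega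
    rw [this]
  -- coprimality
  have hodd : ∀ z ∈ ZD N, z.1 % 2 = 1 ∧ IsCoprime z.1 z.2 := by
    intro z hz
    have h := mem_filter.1 hz
    have h2 := mem_filter.1 h.1
    exact ⟨h2.2.1.1, h.2.2⟩
  have homc : IsCoprime (om e p.1 p.2) ((e * t : ℕ) : ℤ) := by
    have h := (hom e he p.1 p.2 (hodd _ hz).1 (hodd _ hz').1 (hodd _ hz).2 (hodd _ hz').2 hdl).1
    refine IsCoprime.of_isCoprime_of_dvd_right h ?_
    rw [Nat.cast_mul, ht, Int.natCast_natAbs]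
    exact mul_dvd_mul_left _ ((abs_dvd _ _).2 dvd_rfl)
  have hb : (#{l ∈ Ioc (x : ℤ) (2 * x) | lam l ≠ 0 ∧ ¬ IsCoprime l ((e * t : ℕ) : ℤ)} : ℝ) ≤ 2 * (1 + Real.log (2 * N * A / x : ℕ)) * (x / Z + 1) := by
    refine (hCOQ x Z M lam hx hZ hlam (e * t) hD1).trans (mul_le_mul_of_nonneg_right ?_ (by positivity))
    linarith
  have hkey := OUT_c hCNE hTPD hNCH (e * t) R₀ D₀ hD1 (om e p.1 p.2) homc
    (OUT_H (Ioc (x : ℤ) (2 * x)) (fun a b => Ind A p.1 p.2 a b) lam) (M ^ 2 * (x * ((A : ℝ) ^ 2 / x + 1)))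
    (M ^ 2 * (2 * (2 * (1 + Real.log (2 * N * A / x : ℕ)) * (x / Z + 1) * ((A : ℝ) ^ 2 / x + 1)))) (by positivity)
    (fun g hg => by
      have h := OUT_Ha (Ioc (x : ℤ) (2 * x)) (fun a b => Ind A p.1 p.2 a b) lam M _ (fun a b => OUT_Ind A p.1 p.2 a b) hlam.1 hB1 g hg
      rw [hcard] at h
      exact h)
    (fun g hg => OUT_Hb (Ioc (x : ℤ) (2 * x)) (fun a b => Ind A p.1 p.2 a b) lam M _ _ (fun a b => OUT_Ind A p.1 p.2 a b) hlam.1 hB0 hB1 hB2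
      (fun n => IsCoprime n ((e * t : ℕ) : ℤ)) hb g hg)
  have hLL : ∀ χ : DirichletCharacter ℂ (e * t), LL x A lam p.1 p.2 χ =
      OUT_H (Ioc (x : ℤ) (2 * x)) (fun a b => Ind A p.1 p.2 a b) lam (fun n => χ (n : ZMod (e * t))) := fun χ => OUT_LL x A lam p.1 p.2 χ
  simp only [hLL]
  refine hkey.trans (mul_le_mul_of_nonneg_left (add_le_add (mul_le_mul_of_nonneg_right ?_ ?_) le_rfl) (by positivity))
  · refine one_div_le_one_div_of_le (by exact_mod_cast Nat.totient_pos.2 ht1) ?_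
    exact_mod_cast Nat.le_of_dvd (Nat.totient_pos.2 hD1) (Nat.totient_dvd_of_dvd (Dvd.intro_left e rfl))
  · have hl : 0 ≤ Real.log (2 * N * A / x : ℕ) := Real.log_natCast_nonneg _
    positivity

open scoped Classical in
theorem OUT_CR (x N A K₁ : ℕ) (β : ℤ × ℤ → ℝ) (Ω : ℤ × ℤ → ℤ × ℤ → ℂ) (lam : ℤ → ℝ) (r : ℕ) (ψ : DirichletCharacter ℂ r) :
    CR x N A K₁ β Ω (fun l => (lam l : ℂ) * (starRingEnd ℂ) (ψ (l : ZMod r))) (fun l => (lam l : ℂ) * ψ (l : ZMod r)) =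
      ∑ p ∈ Pr x N A K₁, (β p.1 : ℂ) * β p.2 * Ω p.1 p.2 * (1 / ((dl p.1 p.2).natAbs : ℂ)) *
        OUT_H (Ioc (x : ℤ) (2 * x)) (fun a b => Ind A p.1 p.2 a b) lam (fun n => ψ (n : ZMod r)) := rfl

open scoped Classical in
/-- the main part for one `e` -/
theorem OUT_main (om : ℕ → ℤ × ℤ → ℤ × ℤ → ℤ) (x N A K₁ R₀ D₀ : ℕ) (lam : ℤ → ℝ) (β : ℤ × ℤ → ℝ) (e : ℕ) (he : e = 1 ∨ e = 2) :
    ‖∑ p ∈ Pr x N A K₁, (β p.1 : ℂ) * β p.2 * ((-1) ^ (e + 1) * ∑ d ∈ Icc 1 D₀ with Squarefree d,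
        (1 / (((e * (dl p.1 p.2).natAbs : ℕ) : ℂ) * (Nat.totient d : ℂ))) * ∑ r ∈ Icc 1 R₀,
          ∑ ψ : DirichletCharacter ℂ r with ψ.IsPrimitive, Omf om e r d ψ p.1 p.2 *
            OUT_H (Ioc (x : ℤ) (2 * x)) (fun a b => Ind A p.1 p.2 a b) lam (fun n => ψ (n : ZMod r)))‖ ≤
    ∑ d ∈ Icc 1 D₀, 1 / (Nat.totient d : ℝ) * ∑ r ∈ Icc 1 R₀, ∑ ψ : DirichletCharacter ℂ r with ψ.IsPrimitive,
        ‖CR x N A K₁ β (Omf om e r d ψ) (fun l => (lam l : ℂ) * (starRingEnd ℂ) (ψ (l : ZMod r))) (fun l => (lam l : ℂ) * ψ (l : ZMod r))‖ := by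
  have heq : ∑ p ∈ Pr x N A K₁, (β p.1 : ℂ) * β p.2 * ((-1) ^ (e + 1) * ∑ d ∈ Icc 1 D₀ with Squarefree d,
        (1 / (((e * (dl p.1 p.2).natAbs : ℕ) : ℂ) * (Nat.totient d : ℂ))) * ∑ r ∈ Icc 1 R₀,
          ∑ ψ : DirichletCharacter ℂ r with ψ.IsPrimitive, Omf om e r d ψ p.1 p.2 *
            OUT_H (Ioc (x : ℤ) (2 * x)) (fun a b => Ind A p.1 p.2 a b) lam (fun n => ψ (n : ZMod r))) =
      ∑ d ∈ Icc 1 D₀ with Squarefree d, ((-1) ^ (e + 1) * (1 / ((e : ℂ) * (Nat.totient d : ℂ)))) * ∑ r ∈ Icc 1 R₀,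
        ∑ ψ : DirichletCharacter ℂ r with ψ.IsPrimitive,
          CR x N A K₁ β (Omf om e r d ψ) (fun l => (lam l : ℂ) * (starRingEnd ℂ) (ψ (l : ZMod r))) (fun l => (lam l : ℂ) * ψ (l : ZMod r)) := by
    simp only [OUT_CR, mul_sum]
    rw [sum_comm]
    refine sum_congr rfl fun d _ => ?_
    rw [sum_comm]
    refine sum_congr rfl fun r _ => ?_
    rw [sum_comm]
    refine sum_congr rfl fun ψ _ => sum_congr rfl fun p _ => ?_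
    rw [Nat.cast_mul]
    have h : (1 / ((e : ℂ) * ((dl p.1 p.2).natAbs : ℂ) * (Nat.totient d : ℂ))) =
        (1 / ((e : ℂ) * (Nat.totient d : ℂ))) * (1 / ((dl p.1 p.2).natAbs : ℂ)) := by
      rw [one_div_mul_one_div]
      ring_nf
    rw [h]
    ring
  rw [heq]
  refine (norm_sum_le _ _).trans ((sum_le_sum (fun d _ => ?_)).trans
    (sum_le_sum_of_subset_of_nonneg (filter_subset _ _) fun d _ _ =>
      mul_nonneg (by positivity) (sum_nonneg fun r _ => sum_nonneg fun ψ _ => norm_nonneg _)))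
  rw [norm_mul]
  refine mul_le_mul ?_ ((norm_sum_le _ _).trans (sum_le_sum fun r _ => norm_sum_le _ _)) (norm_nonneg _) (by positivity)
  rw [norm_mul, norm_pow, norm_neg, norm_one, one_pow, one_mul, norm_div, norm_one, norm_mul, Complex.norm_natCast, Complex.norm_natCast]
  rcases Nat.eq_zero_or_pos (Nat.totient d) with h0 | h0
  · rw [h0]; simp
  · have h1 : (0 : ℝ) < Nat.totient d := by exact_mod_cast h0
    refine one_div_le_one_div_of_le h1 ?_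
    have h2 : (1 : ℝ) ≤ e := by
      rcases he with h | h <;> rw [h] <;> norm_num
    nlinarith

theorem OUT_num (N A x Z D₀ CP CK CD M Mβ R L : ℝ) (hN : 1 ≤ N) (hA : 1 ≤ A) (hx : 1 ≤ x) (hZ : 1 ≤ Z) (hD : 1 ≤ D₀)
    (hCP : 0 < CP) (hCK : 0 < CK) (hCD : 0 < CD) (hL : 0 ≤ L) :
    Mβ ^ 2 * R ^ 2 * (CP * N * (2 * (M ^ 2 * (2 * (2 * (1 + L) * (x / Z + 1) * (A ^ 2 / x + 1)))) * (CK * (1 + L)) +
      (M ^ 2 * (x * (A ^ 2 / x + 1))) * (2 * (CD * ((1 + L) ^ 2 / D₀))))) ≤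
    (16 * CP * CK + 2 * CP * CD) * Mβ ^ 2 * M ^ 2 * R ^ 2 * (1 + L) ^ 2 * (N * A ^ 2 / Z + N * A ^ 2 / D₀ + N * A ^ 2 / x + x * N) := by
  have hx0 : 0 < x := by linarith
  have hZ0 : 0 < Z := by linarith
  have hD0 : 0 < D₀ := by linarith
  have hN0 : 0 < N := by linarith
  have e1 : N * ((x / Z + 1) * (A ^ 2 / x + 1)) ≤ N * A ^ 2 / Z + N * A ^ 2 / x + 2 * (x * N) := by
    have h1 : N * ((x / Z + 1) * (A ^ 2 / x + 1)) = N * A ^ 2 / Z + N * A ^ 2 / x + N * x / Z + N := by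
      field_simp
      ring
    have h2 : N * x / Z ≤ N * x := div_le_self (by positivity) hZ
    have h3 : N ≤ x * N := by nlinarith
    rw [h1]
    linarith
  have e2 : N * (x * (A ^ 2 / x + 1)) / D₀ ≤ N * A ^ 2 / D₀ + x * N := by
    have h1 : N * (x * (A ^ 2 / x + 1)) / D₀ = N * A ^ 2 / D₀ + N * x / D₀ := by
      field_simp
    have h2 : N * x / D₀ ≤ N * x := div_le_self (by positivity) hD
    rw [h1]
    linarith
  have p1 : 0 ≤ N * A ^ 2 / Z := by positivity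
  have p2 : 0 ≤ N * A ^ 2 / D₀ := by positivity
  have p3 : 0 ≤ N * A ^ 2 / x := by positivity
  have p4 : 0 ≤ x * N := by positivity
  set Q : ℝ := Mβ ^ 2 * M ^ 2 * R ^ 2 * (1 + L) ^ 2 with hQ
  have hQ0 : 0 ≤ Q := by positivity
  have hl : Mβ ^ 2 * R ^ 2 * (CP * N * (2 * (M ^ 2 * (2 * (2 * (1 + L) * (x / Z + 1) * (A ^ 2 / x + 1)))) * (CK * (1 + L)) +
      (M ^ 2 * (x * (A ^ 2 / x + 1))) * (2 * (CD * ((1 + L) ^ 2 / D₀))))) =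
      8 * CP * CK * Q * (N * ((x / Z + 1) * (A ^ 2 / x + 1))) + 2 * CP * CD * Q * (N * (x * (A ^ 2 / x + 1)) / D₀) := by
    rw [hQ]; ring
  rw [hl]
  have hr : (16 * CP * CK + 2 * CP * CD) * Mβ ^ 2 * M ^ 2 * R ^ 2 * (1 + L) ^ 2 * (N * A ^ 2 / Z + N * A ^ 2 / D₀ + N * A ^ 2 / x + x * N) =
      16 * CP * CK * Q * (N * A ^ 2 / Z + N * A ^ 2 / D₀ + N * A ^ 2 / x + x * N) + 2 * CP * CD * Q * (N * A ^ 2 / Z + N * A ^ 2 / D₀ + N * A ^ 2 / x + x * N) := by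
    rw [hQ]; ring
  rw [hr]
  refine add_le_add ?_ (mul_le_mul_of_nonneg_left (e2.trans (by linarith)) (by positivity))
  calc 8 * CP * CK * Q * (N * ((x / Z + 1) * (A ^ 2 / x + 1)))
      ≤ 8 * CP * CK * Q * (2 * (N * A ^ 2 / Z + N * A ^ 2 / D₀ + N * A ^ 2 / x + x * N)) :=
        mul_le_mul_of_nonneg_left (e1.trans (by linarith)) (by positivity)
    _ = _ := by ring

open scoped Classical in
theorem OUT (hCNE : CNE_stmt) (hTPD : TPD_stmt) (hDVS : DVS_stmt) (hCOQ : COQ_stmt) (hCNI : CNI_stmt) (hPAD : PAD_stmt) (hPHK : PHK_stmt) (hNCH : NCH_stmt) : OUT_stmt := by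
  obtain ⟨CP, hCP, hPAD⟩ := hPAD
  obtain ⟨CK, hCK, hPHK⟩ := hPHK
  obtain ⟨CD, hCD, hDVS⟩ := hDVS
  refine ⟨16 * CP * CK + 2 * CP * CD, by positivity, ?_⟩
  intro om hom x Z N A K₁ R₀ D₀ hx hZ hN hA hAx hxN hK₁ hR₀ hD₀ M Mβ lam β hlam hβ
  set X : ℕ := 2 * N * A / x with hX
  set L : ℝ := Real.log (X : ℕ) with hL
  have hL0 : 0 ≤ L := Real.log_natCast_nonneg _
  have hX2 : 2 * (N * A / x) ≤ X := by
    rw [hX, Nat.le_div_iff_mul_le (by omega)]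
    calc 2 * (N * A / x) * x = 2 * (N * A / x * x) := by ring
      _ ≤ 2 * (N * A) := Nat.mul_le_mul_left _ (Nat.div_mul_le_self _ _)
      _ = 2 * N * A := by ring
  have hX1 : 1 ≤ X := by
    rw [hX, Nat.le_div_iff_mul_le (by omega)]
    calc 1 * x ≤ N * A := by omega
      _ ≤ 2 * N * A := by nlinarith [Nat.zero_le (N * A)]
  set E1 : ℝ := M ^ 2 * (2 * (2 * (1 + L) * (x / Z + 1) * ((A : ℝ) ^ 2 / x + 1))) with hE1
  set E0 : ℝ := M ^ 2 * (x * ((A : ℝ) ^ 2 / x + 1)) with hE0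
  have hE1n : 0 ≤ E1 := by positivity
  have hE0n : 0 ≤ E0 := by positivity
  set Mn : ℕ → (ℤ × ℤ) × (ℤ × ℤ) → ℂ := fun e p => ∑ d ∈ Icc 1 D₀ with Squarefree d,
        (1 / (((e * (dl p.1 p.2).natAbs : ℕ) : ℂ) * (Nat.totient d : ℂ))) * ∑ r ∈ Icc 1 R₀,
          ∑ ψ : DirichletCharacter ℂ r with ψ.IsPrimitive, Omf om e r d ψ p.1 p.2 *
            OUT_H (Ioc (x : ℤ) (2 * x)) (fun a b => Ind A p.1 p.2 a b) lam (fun n => ψ (n : ZMod r)) with hMn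
  set St : ℕ → (ℤ × ℤ) × (ℤ × ℤ) → ℂ := fun e p => 1 / (Nat.totient (e * (dl p.1 p.2).natAbs) : ℂ) *
      ∑ χ : DirichletCharacter ℂ (e * (dl p.1 p.2).natAbs) with χ.conductor ≤ R₀,
        (starRingEnd ℂ) (χ (om e p.1 p.2 : ZMod (e * (dl p.1 p.2).natAbs))) * LL x A lam p.1 p.2 χ with hSt
  have hSML : SML x N A K₁ R₀ om β lam = ∑ p ∈ Pr x N A K₁, (β p.1 : ℂ) * β p.2 * ∑ e ∈ ({1, 2} : Finset ℕ), (-1) ^ (e + 1) * St e p := rfl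
  -- the difference
  have hdiff : ‖SML x N A K₁ R₀ om β lam - ∑ p ∈ Pr x N A K₁, (β p.1 : ℂ) * β p.2 * ∑ e ∈ ({1, 2} : Finset ℕ), (-1) ^ (e + 1) * Mn e p‖ ≤
      Mβ ^ 2 * (R₀ : ℝ) ^ 2 * (CP * N * (2 * E1 * (CK * (1 + L)) + E0 * (2 * (CD * ((1 + L) ^ 2 / D₀))))) := by
    set F : ℕ → ℝ := fun t => 2 * E1 * (1 / (Nat.totient t : ℝ)) + E0 * (OUT_S D₀ t + OUT_S D₀ (2 * t)) with hF
    have hF0 : ∀ t, 0 ≤ F t := fun t => by
      have h1 := OUT_S_nonneg D₀ t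
      have h2 := OUT_S_nonneg D₀ (2 * t)
      rw [hF]
      positivity
    have hpt : ∀ p ∈ Pr x N A K₁, ‖(β p.1 : ℂ) * β p.2 * ∑ e ∈ ({1, 2} : Finset ℕ), (-1) ^ (e + 1) * St e p -
        (β p.1 : ℂ) * β p.2 * ∑ e ∈ ({1, 2} : Finset ℕ), (-1) ^ (e + 1) * Mn e p‖ ≤ Mβ ^ 2 * (R₀ : ℝ) ^ 2 * F (dl p.1 p.2).natAbs := by
      intro p hp
      have hM0 : 0 ≤ Mβ := (abs_nonneg _).trans (hβ 0)
      have o1 := OUT_one hCNE hTPD hCOQ hCNI hNCH om hom x Z N A K₁ R₀ D₀ hx hZ hN M lam hlam p hp 1 (Or.inl rfl)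
      have o2 := OUT_one hCNE hTPD hCOQ hCNI hNCH om hom x Z N A K₁ R₀ D₀ hx hZ hN M lam hlam p hp 2 (Or.inr rfl)
      have o1' : ‖St 1 p - Mn 1 p‖ ≤ R₀ ^ 2 * (1 / (Nat.totient (dl p.1 p.2).natAbs : ℝ) * E1 + OUT_S D₀ (1 * (dl p.1 p.2).natAbs) * E0) := o1
      have o2' : ‖St 2 p - Mn 2 p‖ ≤ R₀ ^ 2 * (1 / (Nat.totient (dl p.1 p.2).natAbs : ℝ) * E1 + OUT_S D₀ (2 * (dl p.1 p.2).natAbs) * E0) := o2
      rw [one_mul] at o1'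
      have hs : (β p.1 : ℂ) * β p.2 * ∑ e ∈ ({1, 2} : Finset ℕ), (-1) ^ (e + 1) * St e p -
          (β p.1 : ℂ) * β p.2 * ∑ e ∈ ({1, 2} : Finset ℕ), (-1) ^ (e + 1) * Mn e p =
          (β p.1 : ℂ) * β p.2 * ((St 1 p - Mn 1 p) - (St 2 p - Mn 2 p)) := by
        rw [sum_pair (by norm_num), sum_pair (by norm_num)]
        ring
      rw [hs, norm_mul, norm_mul, Complex.norm_real, Complex.norm_real]
      have hb : ‖β p.1‖ * ‖β p.2‖ ≤ Mβ ^ 2 := by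
        calc ‖β p.1‖ * ‖β p.2‖ ≤ Mβ * Mβ := mul_le_mul (hβ _) (hβ _) (norm_nonneg _) hM0
          _ = Mβ ^ 2 := by ring
      have hd : ‖(St 1 p - Mn 1 p) - (St 2 p - Mn 2 p)‖ ≤ (R₀ : ℝ) ^ 2 * F (dl p.1 p.2).natAbs := by
        refine (norm_sub_le _ _).trans ((add_le_add o1' o2').trans (le_of_eq ?_))
        rw [hF]
        ring
      calc ‖β p.1‖ * ‖β p.2‖ * ‖(St 1 p - Mn 1 p) - (St 2 p - Mn 2 p)‖ ≤ Mβ ^ 2 * ((R₀ : ℝ) ^ 2 * F (dl p.1 p.2).natAbs) :=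
            mul_le_mul hb hd (norm_nonneg _) (by positivity)
        _ = _ := by ring
    rw [hSML, ← sum_sub_distrib]
    refine (norm_sum_le _ _).trans ((sum_le_sum hpt).trans ?_)
    rw [← mul_sum]
    refine mul_le_mul_of_nonneg_left ?_ (by positivity)
    refine (OUT_fib CP hPAD x N A K₁ hx hN F hF0).trans (mul_le_mul_of_nonneg_left ?_ (by positivity))
    have hsub : Icc 1 (N * A / x) ⊆ Icc 1 X := Icc_subset_Icc le_rfl (by omega)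
    have s1 : ∑ t ∈ Icc 1 (N * A / x), 1 / (Nat.totient t : ℝ) ≤ CK * (1 + L) :=
      (sum_le_sum_of_subset_of_nonneg hsub fun t _ _ => by positivity).trans (hPHK X hX1)
    have hD := (hDVS X D₀ hX1 hD₀).2
    have s2 : ∑ t ∈ Icc 1 (N * A / x), OUT_S D₀ t ≤ CD * ((1 + L) ^ 2 / D₀) :=
      (sum_le_sum_of_subset_of_nonneg hsub fun t _ _ => OUT_S_nonneg D₀ t).trans hD
    have s3 : ∑ t ∈ Icc 1 (N * A / x), OUT_S D₀ (2 * t) ≤ CD * ((1 + L) ^ 2 / D₀) := by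
      have himg : ∑ t ∈ Icc 1 (N * A / x), OUT_S D₀ (2 * t) = ∑ t ∈ (Icc 1 (N * A / x)).image (fun t => 2 * t), OUT_S D₀ t := by
        rw [sum_image]
        intro a _ b _ h
        simp only at h
        omega
      rw [himg]
      refine (sum_le_sum_of_subset_of_nonneg (fun t ht => ?_) fun t _ _ => OUT_S_nonneg D₀ t).trans hD
      obtain ⟨s, hs, rfl⟩ := mem_image.1 ht
      rw [mem_Icc] at hs ⊢
      omega
    rw [hF]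
    rw [sum_add_distrib, ← mul_sum, ← mul_sum, sum_add_distrib]
    refine add_le_add (mul_le_mul_of_nonneg_left s1 (by positivity)) (mul_le_mul_of_nonneg_left ?_ hE0n)
    linarith
  -- the main part
  have hmain : ‖∑ p ∈ Pr x N A K₁, (β p.1 : ℂ) * β p.2 * ∑ e ∈ ({1, 2} : Finset ℕ), (-1) ^ (e + 1) * Mn e p‖ ≤
      ∑ e ∈ ({1, 2} : Finset ℕ), ∑ d ∈ Icc 1 D₀, 1 / (Nat.totient d : ℝ) * ∑ r ∈ Icc 1 R₀,
      ∑ ψ : DirichletCharacter ℂ r with ψ.IsPrimitive,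
        ‖CR x N A K₁ β (Omf om e r d ψ) (fun l => (lam l : ℂ) * (starRingEnd ℂ) (ψ (l : ZMod r))) (fun l => (lam l : ℂ) * ψ (l : ZMod r))‖ := by
    have h1 : ∑ p ∈ Pr x N A K₁, (β p.1 : ℂ) * β p.2 * ∑ e ∈ ({1, 2} : Finset ℕ), (-1) ^ (e + 1) * Mn e p =
        ∑ e ∈ ({1, 2} : Finset ℕ), ∑ p ∈ Pr x N A K₁, (β p.1 : ℂ) * β p.2 * ((-1) ^ (e + 1) * Mn e p) := by
      simp only [mul_sum (s := ({1, 2} : Finset ℕ))]
      rw [sum_comm]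
    rw [h1]
    refine (norm_sum_le _ _).trans (sum_le_sum fun e he => ?_)
    have he' : e = 1 ∨ e = 2 := by simpa using he
    exact OUT_main om x N A K₁ R₀ D₀ lam β e he'
  have hnum := OUT_num N A x Z D₀ CP CK CD M Mβ R₀ L (by exact_mod_cast hN) (by exact_mod_cast hA) (by exact_mod_cast hx) (by exact_mod_cast hZ)
    (by exact_mod_cast hD₀) hCP hCK hCD hL0
  calc ‖SML x N A K₁ R₀ om β lam‖ = ‖(∑ p ∈ Pr x N A K₁, (β p.1 : ℂ) * β p.2 * ∑ e ∈ ({1, 2} : Finset ℕ), (-1) ^ (e + 1) * Mn e p) +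
        (SML x N A K₁ R₀ om β lam - ∑ p ∈ Pr x N A K₁, (β p.1 : ℂ) * β p.2 * ∑ e ∈ ({1, 2} : Finset ℕ), (-1) ^ (e + 1) * Mn e p)‖ := by
        rw [add_sub_cancel]
    _ ≤ _ := (norm_add_le _ _).trans (add_le_add hmain (hdiff.trans hnum))

end Pool.Agent.EU
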